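import Pool.Agent.W774.TL.Stm

set_option autoImplicit false

open Set Filter Topology

namespace Pool.Agent.W236.TL.LEG

open Pool.Agent.W774.TL

theorem tangent (f : ℝ → ℝ) (hd : Differentiable ℝ f) (hm : Monotone (deriv f)) (p q : ℝ) :
    f p + deriv f p * (q - p) ≤ f q := by
  rcases lt_trichotomy p q with h | h | h
  · obtain ⟨ξ, hξ, he⟩ := exists_deriv_eq_slope f h hd.continuous.continuousOn hd.differentiableOn
    have h1 := hm hξ.1.le
    have h2 : 0 < q - p := sub_pos.2 h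
    rw [he, le_div_iff₀ h2] at h1
    linarith
  · subst h; simp
  · obtain ⟨ξ, hξ, he⟩ := exists_deriv_eq_slope f h hd.continuous.continuousOn hd.differentiableOn
    have h1 := hm hξ.2.le
    have h2 : 0 < p - q := sub_pos.2 h
    rw [he, div_le_iff₀ h2] at h1
    linarith

theorem surj (f : ℝ → ℝ) (hd : Differentiable ℝ f) (hm : Monotone (deriv f))
    (hc : Continuous (deriv f)) (hs : ∀ K : ℝ, ∃ B : ℝ, ∀ p, K * |p| - B ≤ f p) (v : ℝ) :
    ∃ p, deriv f p = v := by
  obtain ⟨B, hB⟩ := hs (|v| + 1)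
  obtain ⟨c, hc0, hcB⟩ : ∃ c : ℝ, 0 < c ∧ B + f 0 < c :=
    ⟨|B + f 0| + 1, by positivity, by linarith [le_abs_self (B + f 0)]⟩
  have h1 : ∃ a, deriv f a ≤ v := by
    refine ⟨-c, ?_⟩
    have h := tangent f hd hm (-c) 0
    have h' := hB (-c)
    rw [abs_neg, abs_of_pos hc0] at h'
    by_contra hcon
    push Not at hcon
    have h3 : -|v| * c ≤ deriv f (-c) * c :=
      mul_le_mul_of_nonneg_right ((neg_abs_le v).trans hcon.le) hc0.le
    nlinarith
  have h2 : ∃ b, v ≤ deriv f b := by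
    refine ⟨c, ?_⟩
    have h := tangent f hd hm c 0
    have h' := hB c
    rw [abs_of_pos hc0] at h'
    by_contra hcon
    push Not at hcon
    have h3 : deriv f c * c ≤ |v| * c :=
      mul_le_mul_of_nonneg_right (hcon.le.trans (le_abs_self v)) hc0.le
    nlinarith
  exact mem_range_of_exists_le_of_exists_ge hc h1 h2

theorem inv_smooth {E : Type} [NormedAddCommGroup E] [NormedSpace ℝ E] [CompleteSpace E]
    [FiniteDimensional ℝ E]
    (Φ Ψ : E → E) (hΦ : ContDiff ℝ (⊤ : ℕ∞) Φ) (hinj : Function.Injective Φ)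
    (hright : ∀ y, Φ (Ψ y) = y)
    (hker : ∀ q w, fderiv ℝ Φ q w = 0 → w = 0) : ContDiff ℝ (⊤ : ℕ∞) Ψ := by
  rw [contDiff_iff_contDiffAt]
  intro y
  have hq : Φ (Ψ y) = y := hright y
  have hi : Function.Injective (fderiv ℝ Φ (Ψ y)) := by
    rw [injective_iff_map_eq_zero]
    exact hker _
  have hk : ((fderiv ℝ Φ (Ψ y)) : E →L[ℝ] E).ker = ⊥ := LinearMap.ker_eq_bot.2 hi
  have hr : ((fderiv ℝ Φ (Ψ y)) : E →L[ℝ] E).range = ⊤ := by
    have := LinearMap.injective_iff_surjective (f := ((fderiv ℝ Φ (Ψ y)) : E →ₗ[ℝ] E))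
    exact LinearMap.range_eq_top.2 (this.1 hi)
  let f' : E ≃L[ℝ] E := ContinuousLinearEquiv.ofBijective (fderiv ℝ Φ (Ψ y)) hk hr
  have hcd : ContDiffAt ℝ (⊤ : ℕ∞) Φ (Ψ y) := hΦ.contDiffAt
  have hfd : HasFDerivAt Φ (f' : E →L[ℝ] E) (Ψ y) := by
    have h0 : (f' : E →L[ℝ] E) = fderiv ℝ Φ (Ψ y) := ContinuousLinearEquiv.coe_ofBijective _ _ _
    rw [h0]
    exact ((hΦ.differentiable (by simp)) _).hasFDerivAt
  have hn : ((⊤ : ℕ∞) : WithTop ℕ∞) ≠ 0 := by simp
  have h1 := hcd.to_localInverse hfd hn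
  rw [hq] at h1
  refine h1.congr_of_eventuallyEq ?_
  have h2 : ∀ᶠ z in 𝓝 (Φ (Ψ y)), Φ (hcd.localInverse hfd hn z) = z :=
    (hcd.hasStrictFDerivAt' hfd hn).eventually_right_inverse
  rw [hq] at h2
  filter_upwards [h2] with z hz
  exact hinj (by rw [hright, hz])

/-- The partial derivative in the second variable as a smooth function. -/
theorem partial_p (F : ℝ × ℝ × ℝ → ℝ) (hF : ContDiff ℝ (⊤ : ℕ∞) F) :
    ∃ D : ℝ × ℝ × ℝ → ℝ, ContDiff ℝ (⊤ : ℕ∞) D ∧
      (∀ x p t, HasDerivAt (fun s => F (x, s, t)) (D (x, p, t)) p) ∧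
      ∀ q, D q = fderiv ℝ F q (0, 1, 0) := by
  refine ⟨fun q => fderiv ℝ F q (0, 1, 0), ?_, ?_, fun q => rfl⟩
  · exact (hF.fderiv_right (m := ((⊤ : ℕ∞) : WithTop ℕ∞)) (by simp)).clm_apply contDiff_const
  · intro x p t
    have hl : HasDerivAt (fun s : ℝ => ((x, s, t) : ℝ × ℝ × ℝ)) (0, 1, 0) p :=
      (hasDerivAt_const p x).prodMk ((hasDerivAt_id p).prodMk (hasDerivAt_const p t))
    exact ((hF.differentiable (by simp)) (x, p, t)).hasFDerivAt.comp_hasDerivAt p hl

theorem leg_thm : P_LEG := by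
  intro H hH hpos hsup hbd hper
  obtain ⟨D, hDs, hDd, hDf⟩ := partial_p (fun q => H q.1 q.2.1 q.2.2) hH
  obtain ⟨D2, hD2s, hD2d, hD2f⟩ := partial_p D hDs
  have hDd' : ∀ x p t, HasDerivAt (fun s => H x s t) (D (x, p, t)) p := hDd
  have hDeq : ∀ x t, deriv (fun s => H x s t) = fun p => D (x, p, t) := fun x t =>
    funext fun p => (hDd' x p t).deriv
  have hpos' : ∀ x p t, 0 < D2 (x, p, t) := by
    intro x p t
    have h := hpos x p t
    rw [hDeq, (hD2d x p t).deriv] at h
    exact h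
  have hmono : ∀ x t, StrictMono (fun p => D (x, p, t)) := by
    intro x t
    refine strictMono_of_deriv_pos fun p => ?_
    rw [(hD2d x p t).deriv]
    exact hpos' x p t
  have hdiff : ∀ x t, Differentiable ℝ (fun s => H x s t) := fun x t p =>
    (hDd' x p t).differentiableAt
  have hmono' : ∀ x t, Monotone (deriv (fun s => H x s t)) := fun x t => by
    rw [hDeq]; exact (hmono x t).monotone
  have hcont : ∀ x t, Continuous (deriv (fun s => H x s t)) := fun x t => by
    rw [hDeq]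
    exact hDs.continuous.comp (by fun_prop)
  have hsurj : ∀ x v t, ∃ p, deriv (fun s => H x s t) p = v := fun x v t =>
    surj _ (hdiff x t) (hmono' x t) (hcont x t)
      (fun K => (hsup K).imp fun B hB p => hB x p t) v
  choose P hP using hsurj
  have hP' : ∀ x v t, D (x, P x v t, t) = v := fun x v t => by
    have := hP x v t
    rw [hDeq] at this
    exact this
  have huniq : ∀ x v t p, D (x, p, t) = v → P x v t = p := fun x v t p h =>
    (hmono x t).injective ((hP' x v t).trans h.symm)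
  -- smoothness of the inverse
  have hΨ : ContDiff ℝ (⊤ : ℕ∞) (fun q : ℝ × ℝ × ℝ => (q.1, P q.1 q.2.1 q.2.2, q.2.2)) := by
    refine inv_smooth (fun q : ℝ × ℝ × ℝ => (q.1, D q, q.2.2)) _ ?_ ?_ ?_ ?_
    · exact contDiff_fst.prodMk (hDs.prodMk (contDiff_snd.comp contDiff_snd))
    · rintro ⟨x, p, t⟩ ⟨x', p', t'⟩ h
      simp only [Prod.mk.injEq] at h
      obtain ⟨rfl, h2, rfl⟩ := h
      rw [(hmono x t).injective h2]
    · rintro ⟨x, v, t⟩
      simp only [hP']
    · rintro q w hw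
      have hDq : HasFDerivAt D (fderiv ℝ D q) q :=
        ((hDs.differentiable (by simp)) q).hasFDerivAt
      have hΦ : HasFDerivAt (fun q : ℝ × ℝ × ℝ => (q.1, D q, q.2.2))
          ((ContinuousLinearMap.fst ℝ ℝ (ℝ × ℝ)).prod ((fderiv ℝ D q).prod
            ((ContinuousLinearMap.snd ℝ ℝ ℝ).comp (ContinuousLinearMap.snd ℝ ℝ (ℝ × ℝ))))) q :=
        hasFDerivAt_fst.prodMk (hDq.prodMk (((ContinuousLinearMap.snd ℝ ℝ ℝ).comp
          (ContinuousLinearMap.snd ℝ ℝ (ℝ × ℝ))).hasFDerivAt))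
      rw [hΦ.fderiv] at hw
      obtain ⟨w1, w2, w3⟩ := w
      simp only [ContinuousLinearMap.prod_apply, ContinuousLinearMap.coe_fst',
        ContinuousLinearMap.coe_comp, Function.comp_apply, ContinuousLinearMap.coe_snd',
        Prod.mk_eq_zero] at hw
      obtain ⟨h1, h2, h3⟩ := hw
      subst h1 h3
      have h4 : ((0 : ℝ), w2, (0 : ℝ)) = w2 • ((0 : ℝ), (1 : ℝ), (0 : ℝ)) := by simp
      rw [h4, map_smul, ← hD2f, smul_eq_mul] at h2
      have h5 : D2 q ≠ 0 := (hpos' q.1 q.2.1 q.2.2).ne'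
      have h6 : w2 = 0 := by
        rcases mul_eq_zero.1 h2 with h | h
        · exact h
        · exact absurd h h5
      simp [h6]
  have hPs : ContDiff ℝ (⊤ : ℕ∞) (fun q : ℝ × ℝ × ℝ => P q.1 q.2.1 q.2.2) :=
    (contDiff_fst.comp contDiff_snd).comp hΨ
  have hHP : ContDiff ℝ (⊤ : ℕ∞)
      (fun q : ℝ × ℝ × ℝ => H q.1 (P q.1 q.2.1 q.2.2) q.2.2) := hH.comp hΨ
  have hPv : ∀ x v t, DifferentiableAt ℝ (fun s => P x s t) v := by
    intro x v t
    have h : Differentiable ℝ (fun s => (fun q : ℝ × ℝ × ℝ => P q.1 q.2.1 q.2.2) (x, s, t)) :=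
      (hPs.differentiable (by simp)).comp (by fun_prop)
    exact h v
  have hPx : ∀ x v t, DifferentiableAt ℝ (fun s => P s v t) x := by
    intro x v t
    have h : Differentiable ℝ (fun s => (fun q : ℝ × ℝ × ℝ => P q.1 q.2.1 q.2.2) (s, v, t)) :=
      (hPs.differentiable (by simp)).comp (by fun_prop)
    exact h x
  refine ⟨fun x v t => P x v t * v - H x (P x v t) t, P, ?_, hPs, hP, ?_, ?_, ?_, ?_, ?_, ?_⟩
  · exact (hPs.mul (contDiff_fst.comp contDiff_snd)).sub hHP
  · intro x p t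
    refine huniq x _ t p ?_
    rw [hDeq]
  · intro x v t
    have h1 := (hPv x v t).hasDerivAt
    have h2 := (hDd' x (P x v t) t).comp v h1
    have h3 := (h1.mul (hasDerivAt_id v)).sub h2
    refine h3.congr_deriv ?_
    rw [hP']
    simp only [id]
    ring
  · intro x v t
    have h1 := (hPx x v t).hasDerivAt
    have hFd := ((hH.differentiable (by simp)) (x, P x v t, t)).hasFDerivAt
    have hl : HasDerivAt (fun s : ℝ => ((s, P s v t, t) : ℝ × ℝ × ℝ))
        (1, deriv (fun s => P s v t) x, 0) x :=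
      (hasDerivAt_id x).prodMk (h1.prodMk (hasDerivAt_const x t))
    have hl0 : HasDerivAt (fun s : ℝ => ((s, P x v t, t) : ℝ × ℝ × ℝ)) (1, 0, 0) x :=
      (hasDerivAt_id x).prodMk ((hasDerivAt_const x _).prodMk (hasDerivAt_const x t))
    have h2 := hFd.comp_hasDerivAt x hl
    have h20 := hFd.comp_hasDerivAt x hl0
    have h3 := (h1.mul_const v).sub h2
    refine h3.congr_deriv ?_
    have h4 : deriv (fun s => H s (P x v t) t) x =
        fderiv ℝ (fun q : ℝ × ℝ × ℝ => H q.1 q.2.1 q.2.2) (x, P x v t, t) (1, 0, 0) := h20.deriv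
    have h5 : ((1 : ℝ), deriv (fun s => P s v t) x, (0 : ℝ)) =
        ((1 : ℝ), (0 : ℝ), (0 : ℝ)) + deriv (fun s => P s v t) x • ((0 : ℝ), (1 : ℝ), (0 : ℝ)) := by
      simp
    rw [h4, h5, map_add, map_smul, ← hDf, hP', smul_eq_mul]
    ring
  · intro x v t
    have h1 := (hPv x v t).hasDerivAt
    have h2 : HasDerivAt (fun s => D (x, P x s t, t)) (D2 (x, P x v t, t) *
        deriv (fun s => P x s t) v) v :=
      HasDerivAt.comp (h₂ := fun s => D (x, s, t)) v (hD2d x (P x v t) t) h1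
    have h3 : (fun s => D (x, P x s t, t)) = fun s => s := funext fun s => hP' x s t
    rw [h3] at h2
    have h4 := h2.unique (hasDerivAt_id v)
    have h5 := hpos' x (P x v t) t
    by_contra hcon
    push Not at hcon
    have := mul_nonpos_of_nonneg_of_nonpos h5.le hcon
    linarith
  · intro K
    obtain ⟨B, hB⟩ := hbd |K|
    refine ⟨B, fun x v t => ?_⟩
    have key : ∀ p, |p| ≤ |K| → p * v - B ≤ P x v t * v - H x (P x v t) t := by
      intro p hp
      have h1 := tangent _ (hdiff x t) (hmono' x t) (P x v t) p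
      rw [hP] at h1
      have h2 := hB x p t hp
      linarith
    rcases le_total 0 v with hv | hv
    · rw [abs_of_nonneg hv]
      exact key K le_rfl
    · rw [abs_of_nonpos hv]
      have := key (-K) (by rw [abs_neg])
      linarith
  · intro x v t
    have hH1 : (fun s => H (x + 1) s t) = fun s => H x s t := funext fun s => (hper x s t).1
    have hH2 : (fun s => H x s (t + 1)) = fun s => H x s t := funext fun s => (hper x s t).2
    have hP1 : P (x + 1) v t = P x v t := by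
      refine huniq (x + 1) v t _ ?_
      have h1 : (fun p => D (x + 1, p, t)) = fun p => D (x, p, t) := by
        rw [← hDeq, ← hDeq, hH1]
      have h2 : D (x + 1, P x v t, t) = D (x, P x v t, t) := congrFun h1 (P x v t)
      rw [h2, hP']
    have hP2 : P x v (t + 1) = P x v t := by
      refine huniq x v (t + 1) _ ?_
      have h1 : (fun p => D (x, p, t + 1)) = fun p => D (x, p, t) := by
        rw [← hDeq, ← hDeq, hH2]
      have h2 : D (x, P x v t, t + 1) = D (x, P x v t, t) := congrFun h1 (P x v t)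
      rw [h2, hP']
    refine ⟨?_, ?_⟩
    · simp only [hP1, (hper x _ t).1]
    · simp only [hP2, (hper x _ t).2]

end Pool.Agent.W236.TL.LEG
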